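import Pool.Agent.Helper85_LG.Defs

set_option autoImplicit false

namespace Pool.Agent.Helper85_LG

/-- The clone is closed under composition. -/
theorem Alg.Clo.subst {A : Alg} {m n : ℕ} {f : (Fin m → A.carrier) → A.carrier}
    (hf : A.Clo m f) {g : Fin m → (Fin n → A.carrier) → A.carrier} (hg : ∀ j, A.Clo n (g j)) :
    A.Clo n (fun x => f (fun j => g j x)) := by
  induction hf with
  | proj i => exact hg i
  | comp o h _ ih => exact Alg.Clo.comp o (fun j x => h j (fun l => g l x)) ih

/-- A basic operation is a term operation. -/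
theorem Alg.Clo.basic {A : Alg} (o : A.Op) : A.Clo (A.opArity o) (A.op o) := by
  have := Alg.Clo.comp (A := A) o (fun j (x : Fin (A.opArity o) → A.carrier) => x j)
    (fun j => Alg.Clo.proj j)
  simpa using this

/-- Terms evaluated with term operations give term operations. -/
theorem Alg.Clo.eval {A : Alg} {m n : ℕ} {ar : Fin m → ℕ} {V : Type}
    {I : (i : Fin m) → (Fin (ar i) → A.carrier) → A.carrier} (hI : ∀ i, A.Clo (ar i) (I i))
    {y : V → (Fin n → A.carrier) → A.carrier} (hy : ∀ v, A.Clo n (y v)) (t : MTerm ar V) :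
    A.Clo n (fun x => t.eval I (fun v => y v x)) := by
  induction t with
  | var v => exact hy v
  | app i ts ih => exact (hI i).subst ih

theorem StrongMaltsev.SatOn.mono {S : StrongMaltsev} {A : Alg}
    {F G : Set (Fin S.numVar → A.carrier)} (h : S.SatOn A G) (hFG : F ⊆ G) : S.SatOn A F := by
  obtain ⟨I, hI, h⟩ := h
  exact ⟨I, hI, fun x hx => h x (hFG hx)⟩

/-- On a set of at most `k` tuples, `k`-local satisfaction suffices. -/
theorem StrongMaltsev.satOn_of_card_le {S : StrongMaltsev} {A : Alg} {k : ℕ}
    (hk : (k : Cardinal) ≤ Cardinal.mk A.carrier ^ S.numVar)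
    (h : ∀ F : Finset (Fin S.numVar → A.carrier), F.card = k → S.SatOn A F)
    (F : Finset (Fin S.numVar → A.carrier)) (hF : F.card ≤ k) : S.SatOn A F := by
  classical
  have hk' : (k : Cardinal) ≤ Cardinal.mk (Fin S.numVar → A.carrier) := by
    simpa using hk
  obtain ⟨G, hFG, hG⟩ : ∃ G : Finset (Fin S.numVar → A.carrier), F ⊆ G ∧ G.card = k := by
    rcases finite_or_infinite (Fin S.numVar → A.carrier) with hfin | hinf
    · haveI := Fintype.ofFinite (Fin S.numVar → A.carrier)
      have : k ≤ (Finset.univ : Finset (Fin S.numVar → A.carrier)).card := by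
        rw [Finset.card_univ]
        rw [Cardinal.mk_fintype] at hk'
        exact_mod_cast hk'
      obtain ⟨G, h1, -, h2⟩ := Finset.exists_subsuperset_card_eq (Finset.subset_univ F) hF this
      exact ⟨G, h1, h2⟩
    · exact Infinite.exists_superset_card_eq F k hF
  exact (h G hG).mono (by exact_mod_cast hFG)

end Pool.Agent.Helper85_LG
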