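import Mathlib

set_option autoImplicit false

/-!
Strong Maltsev conditions, algebras, clones of term operations and the local-global property.
-/

namespace Pool.Agent.Helper85_LG

/-- Terms in variables from `V` over finitely many operation symbols `f_0, ..., f_{m-1}`, where the
symbol `f_i` has arity `ar i`. -/
inductive MTerm {m : ℕ} (ar : Fin m → ℕ) (V : Type) : Type
  | var : V → MTerm ar V
  | app : (i : Fin m) → (Fin (ar i) → MTerm ar V) → MTerm ar V

/-- Value of a term when the symbol `f_i` is interpreted by the operation `I i` on the set `X` and
the variables by `x`. -/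
def MTerm.eval {m : ℕ} {ar : Fin m → ℕ} {V X : Type}
    (I : (i : Fin m) → (Fin (ar i) → X) → X) (x : V → X) : MTerm ar V → X
  | .var v => x v
  | .app i ts => I i (fun j => (ts j).eval I x)

/-- A term is linear if it is a variable or a single operation symbol applied to variables. -/
def MTerm.Linear {m : ℕ} {ar : Fin m → ℕ} {V : Type} (t : MTerm ar V) : Prop :=
  (∃ v : V, t = .var v) ∨
    ∃ (i : Fin m) (g : Fin (ar i) → V), t = .app i (fun j => .var (g j))

/-- A strong Maltsev condition: a finite list of identities `l ≈ r` between terms built from
finitely many operation symbols and the variables `x_0, ..., x_{n-1}`, where `n = numVar`. -/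
structure StrongMaltsev where
  /-- number of operation symbols -/
  numSym : ℕ
  /-- arities of the operation symbols -/
  arity : Fin numSym → ℕ
  /-- number `n` of variables -/
  numVar : ℕ
  /-- the identities, as pairs (left side, right side) -/
  identities : List (MTerm arity (Fin numVar) × MTerm arity (Fin numVar))

/-- An algebra: a nonempty set with a family of finitary operations (any signature). -/
structure Alg where
  /-- the universe of the algebra -/
  carrier : Type
  nonempty : Nonempty carrier
  /-- index set of the basic operations -/
  Op : Type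
  /-- arities of the basic operations -/
  opArity : Op → ℕ
  /-- the basic operations -/
  op : (o : Op) → (Fin (opArity o) → carrier) → carrier

/-- `A.Clo n f`: the `n`-ary operation `f` belongs to the clone of term operations of `A`. -/
inductive Alg.Clo (A : Alg) (n : ℕ) : ((Fin n → A.carrier) → A.carrier) → Prop
  | proj (i : Fin n) : Alg.Clo A n (fun x => x i)
  | comp (o : A.Op) (g : Fin (A.opArity o) → (Fin n → A.carrier) → A.carrier)
      (hg : ∀ j, Alg.Clo A n (g j)) : Alg.Clo A n (fun x => A.op o (fun j => g j x))

namespace StrongMaltsev

/-- `A` satisfies `S` on `F`, a set of `n`-tuples: some interpretation of the symbols by term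
operations of `A` makes every identity of `S` true for all tuples in `F`. -/
def SatOn (S : StrongMaltsev) (A : Alg) (F : Set (Fin S.numVar → A.carrier)) : Prop :=
  ∃ I : (i : Fin S.numSym) → (Fin (S.arity i) → A.carrier) → A.carrier,
    (∀ i, A.Clo (S.arity i) (I i)) ∧
      ∀ x ∈ F, ∀ e ∈ S.identities, e.1.eval I x = e.2.eval I x

/-- `A ⊨ S`: the symbols can be interpreted by term operations of `A` so that every identity of
`S` holds for all values of the variables. -/
def Sat (S : StrongMaltsev) (A : Alg) : Prop := S.SatOn A Set.univ

/-- The `k`-local-global property. -/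
def KLocalGlobal (S : StrongMaltsev) (k : ℕ) : Prop :=
  ∀ A : Alg, (k : Cardinal) ≤ Cardinal.mk A.carrier ^ S.numVar →
    (∀ F : Finset (Fin S.numVar → A.carrier), F.card = k → S.SatOn A F) →
      ∀ F : Finset (Fin S.numVar → A.carrier), S.SatOn A F

/-- The local-global property: the `k`-local-global property for some `k ≥ 1`. -/
def LocalGlobal (S : StrongMaltsev) : Prop := ∃ k : ℕ, 1 ≤ k ∧ S.KLocalGlobal k

/-- `S₁ ≤ S₂`: every algebra satisfying `S₂` satisfies `S₁`. -/
def Le (S₁ S₂ : StrongMaltsev) : Prop := ∀ A : Alg, S₂.Sat A → S₁.Sat A

/-- Equivalence of strong Maltsev conditions: they hold in the same algebras. -/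
def Equivalent (S₁ S₂ : StrongMaltsev) : Prop := S₁.Le S₂ ∧ S₂.Le S₁

/-- Linear strong Maltsev conditions: both sides of every identity are linear terms. -/
def Linear (S : StrongMaltsev) : Prop := ∀ e ∈ S.identities, e.1.Linear ∧ e.2.Linear

end StrongMaltsev

end Pool.Agent.Helper85_LG
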