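import Pool.Agent.Helper85_LG.Basic

set_option autoImplicit false

/-!
Derivations, free algebras, and level-wise evaluation of terms for height one conditions.
-/

namespace Pool.Agent.Helper85_LG

/-- Substitution. -/
def MTerm.subst {m : ℕ} {ar : Fin m → ℕ} {V W : Type} (σ : V → MTerm ar W) :
    MTerm ar V → MTerm ar W
  | .var v => σ v
  | .app i ts => .app i (fun j => (ts j).subst σ)

theorem MTerm.eval_subst {m : ℕ} {ar : Fin m → ℕ} {V W X : Type} (σ : V → MTerm ar W)
    (I : (i : Fin m) → (Fin (ar i) → X) → X) (x : W → X) (t : MTerm ar V) :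
    (t.subst σ).eval I x = t.eval I (fun v => (σ v).eval I x) := by
  induction t with
  | var v => rfl
  | app i ts ih =>
    change I i _ = I i _
    congr 1
    funext j
    exact ih j

/-- Derivability of equations between terms from the identities of `S`. -/
inductive StrongMaltsev.Prov (S : StrongMaltsev) {V : Type} :
    MTerm S.arity V → MTerm S.arity V → Prop
  | refl (t) : Prov S t t
  | symm {t t'} : Prov S t t' → Prov S t' t
  | trans {t t' t''} : Prov S t t' → Prov S t' t'' → Prov S t t''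
  | congr (i) {ts ts'} : (∀ j, Prov S (ts j) (ts' j)) → Prov S (.app i ts) (.app i ts')
  | ax (e) (he : e ∈ S.identities) (σ : Fin S.numVar → MTerm S.arity V) :
      Prov S (e.1.subst σ) (e.2.subst σ)

/-- Derivable equality as a setoid. -/
def StrongMaltsev.provSetoid (S : StrongMaltsev) (V : Type) : Setoid (MTerm S.arity V) where
  r := S.Prov
  iseqv := ⟨.refl, .symm, .trans⟩

/-- Terms over countably many variables modulo derivable equality. -/
abbrev StrongMaltsev.FreeT (S : StrongMaltsev) : Type := Quotient (S.provSetoid ℕ)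

/-- The operations of the free algebra. -/
noncomputable def StrongMaltsev.freeOp (S : StrongMaltsev) (i : Fin S.numSym)
    (x : Fin (S.arity i) → S.FreeT) : S.FreeT :=
  Quotient.mk _ (.app i (fun j => (x j).out))

/-- The free algebra of `S` on countably many generators. -/
noncomputable def StrongMaltsev.freeAlg (S : StrongMaltsev) : Alg where
  carrier := S.FreeT
  nonempty := ⟨Quotient.mk _ (.var 0)⟩
  Op := Fin S.numSym
  opArity := S.arity
  op := S.freeOp

theorem StrongMaltsev.freeAlg_op (S : StrongMaltsev) (i : Fin S.numSym)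
    (ts : Fin (S.arity i) → MTerm S.arity ℕ) :
    S.freeOp i (fun j => (Quotient.mk (S.provSetoid ℕ) (ts j))) =
      Quotient.mk (S.provSetoid ℕ) (.app i ts) := by
  apply Quotient.sound
  refine StrongMaltsev.Prov.congr i (fun j => ?_)
  exact Quotient.exact (s := S.provSetoid ℕ) (Quotient.out_eq (Quotient.mk _ (ts j)))

/-- Clone elements of the free algebra are given by terms. -/
theorem StrongMaltsev.freeAlg_clo (S : StrongMaltsev) {n : ℕ}
    {f : (Fin n → S.freeAlg.carrier) → S.freeAlg.carrier} (hf : S.freeAlg.Clo n f) :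
    ∃ t : MTerm S.arity (Fin n), ∀ x : Fin n → MTerm S.arity ℕ,
      f (fun j => (Quotient.mk (S.provSetoid ℕ) (x j) : S.FreeT)) =
        (Quotient.mk (S.provSetoid ℕ) (t.subst x) : S.FreeT) := by
  induction hf with
  | proj i => exact ⟨.var i, fun x => rfl⟩
  | comp o g hg ih =>
    choose t ht using ih
    refine ⟨.app o t, fun x => ?_⟩
    refine Eq.trans ?_ (S.freeAlg_op o (fun j => (t j).subst x))
    exact congrArg (S.freeOp o) (funext fun j => ht j x)

theorem StrongMaltsev.freeAlg_eval (S : StrongMaltsev) {V : Type} (t : MTerm S.arity V)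
    (x : V → MTerm S.arity ℕ) :
    t.eval S.freeOp (fun v => Quotient.mk (S.provSetoid ℕ) (x v)) =
      Quotient.mk (S.provSetoid ℕ) (t.subst x) := by
  induction t with
  | var v => rfl
  | app i ts ih =>
    change S.freeOp i (fun j => (ts j).eval S.freeOp
      (fun v => Quotient.mk (S.provSetoid ℕ) (x v))) = _
    simp only [ih]
    exact S.freeAlg_op i _

theorem StrongMaltsev.freeAlg_sat (S : StrongMaltsev) : S.Sat S.freeAlg := by
  refine ⟨S.freeOp, fun i => Alg.Clo.basic (A := S.freeAlg) i, ?_⟩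
  change ∀ x ∈ (Set.univ : Set (Fin S.numVar → S.FreeT)), ∀ e ∈ S.identities,
    e.1.eval S.freeOp x = e.2.eval S.freeOp x
  intro x _ e he
  have hx : x = fun v => Quotient.mk (S.provSetoid ℕ) ((x v).out) := by
    funext v
    exact (Quotient.out_eq (x v)).symm
  rw [hx, S.freeAlg_eval, S.freeAlg_eval]
  exact Quotient.sound (StrongMaltsev.Prov.ax e he _)

/-- If `T ≤ S` then the symbols of `T` are given by terms of `S` such that the identities of `T`
are derivable from `S`. Stated for the linear height one identities of `T`. -/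
theorem StrongMaltsev.exists_terms {S T : StrongMaltsev} (h : T.Le S) :
    ∃ t : (i : Fin T.numSym) → MTerm S.arity (Fin (T.arity i)),
      ∀ (i j : Fin T.numSym) (g : Fin (T.arity i) → Fin T.numVar)
        (g' : Fin (T.arity j) → Fin T.numVar),
        (MTerm.app i (fun a => .var (g a)), MTerm.app j (fun a => .var (g' a))) ∈ T.identities →
        S.Prov (V := ℕ) ((t i).subst (fun a => .var (g a).val))
          ((t j).subst (fun a => .var (g' a).val)) := by
  obtain ⟨I, hI, hid⟩ := h _ S.freeAlg_sat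
  have := fun i => S.freeAlg_clo (hI i)
  choose t ht using this
  refine ⟨t, fun i j g g' he => ?_⟩
  have h1 := hid (fun v => Quotient.mk (S.provSetoid ℕ) (.var v.val)) (Set.mem_univ _) _ he
  change I i (fun a => Quotient.mk (S.provSetoid ℕ) (.var (g a).val)) =
    I j (fun a => Quotient.mk (S.provSetoid ℕ) (.var (g' a).val)) at h1
  have h2 : Quotient.mk (S.provSetoid ℕ) ((t i).subst (fun a => .var (g a).val)) =
      Quotient.mk (S.provSetoid ℕ) ((t j).subst (fun a => .var (g' a).val)) :=
    ((ht i (fun a => .var (g a).val)).symm.trans h1).trans (ht j (fun a => .var (g' a).val))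
  exact Quotient.exact h2

/-- Level-wise evaluation: the symbols at depth `d` (from the root) are interpreted by `J d`. -/
def MTerm.leval {m : ℕ} {ar : Fin m → ℕ} {V X : Type} :
    MTerm ar V → (ℕ → (i : Fin m) → (Fin (ar i) → X) → X) → (V → X) → X
  | .var v, _, x => x v
  | .app i ts, J, x => J 0 i (fun j => (ts j).leval (fun d => J (d + 1)) x)

theorem MTerm.leval_rename {m : ℕ} {ar : Fin m → ℕ} {V W X : Type} (ρ : V → W)
    (t : MTerm ar V) (J : ℕ → (i : Fin m) → (Fin (ar i) → X) → X) (x : W → X) :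
    (t.subst (fun v => .var (ρ v))).leval J x = t.leval J (fun v => x (ρ v)) := by
  induction t generalizing J with
  | var v => rfl
  | app i ts ih =>
    change J 0 i _ = J 0 i _
    congr 1
    funext j
    exact ih j _

theorem Alg.Clo.leval {A : Alg} {m n : ℕ} {ar : Fin m → ℕ}
    (t : MTerm ar (Fin n)) {J : ℕ → (i : Fin m) → (Fin (ar i) → A.carrier) → A.carrier}
    (hJ : ∀ d i, A.Clo (ar i) (J d i)) : A.Clo n (fun x => t.leval J x) := by
  induction t generalizing J with
  | var v => exact Alg.Clo.proj v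
  | app i ts ih =>
    exact (hJ 0 i).subst (fun j => ih j (J := fun d => J (d + 1)) (fun d i => hJ (d + 1) i))

/-- The interpretation `I` makes all identities of `S` true at the tuple `y`. -/
def StrongMaltsev.GoodAt (S : StrongMaltsev) {X : Type}
    (I : (i : Fin S.numSym) → (Fin (S.arity i) → X) → X) (y : Fin S.numVar → X) : Prop :=
  ∀ e ∈ S.identities, e.1.eval I y = e.2.eval I y

/-- Height one conditions: both sides of each identity are a symbol applied to variables. -/
def StrongMaltsev.HeightOne (S : StrongMaltsev) : Prop :=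
  ∀ e ∈ S.identities,
    (∃ (i : Fin S.numSym) (g : Fin (S.arity i) → Fin S.numVar),
      e.1 = .app i (fun j => .var (g j))) ∧
    (∃ (i : Fin S.numSym) (g : Fin (S.arity i) → Fin S.numVar),
      e.2 = .app i (fun j => .var (g j)))

/-- Level-wise soundness of derivations for a list of equations. -/
def StrongMaltsev.Lev (S : StrongMaltsev) {V : Type}
    (P : MTerm S.arity V → MTerm S.arity V → Prop) : Prop :=
  ∃ c D : ℕ, ∀ (X : Type) (F : Finset (V → X)),
    ∃ Φ : ℕ → (ℕ → (i : Fin S.numSym) → (Fin (S.arity i) → X) → X) →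
        Finset (Fin S.numVar → X),
      (∀ d J, (Φ d J).card ≤ c * F.card) ∧ (∀ d, D ≤ d → ∀ J, Φ d J = ∅) ∧
      ∀ J, (∀ d, ∀ y ∈ Φ d (fun e => J (e + (d + 1))), S.GoodAt (J d) y) →
        ∀ t t', P t t' → ∀ x ∈ F, t.leval J x = t'.leval J x

theorem StrongMaltsev.Lev.mono {S : StrongMaltsev} {V : Type}
    {P Q : MTerm S.arity V → MTerm S.arity V → Prop} (h : S.Lev Q)
    (hPQ : ∀ t t', P t t' → Q t t') : S.Lev P := by
  obtain ⟨c, D, h⟩ := h
  refine ⟨c, D, fun X F => ?_⟩
  obtain ⟨Φ, h1, h2, h3⟩ := h X F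
  exact ⟨Φ, h1, h2, fun J hJ t t' ht => h3 J hJ t t' (hPQ t t' ht)⟩

theorem StrongMaltsev.Lev.or {S : StrongMaltsev} {V : Type}
    {P Q : MTerm S.arity V → MTerm S.arity V → Prop} (hP : S.Lev P) (hQ : S.Lev Q) :
    S.Lev (fun t t' => P t t' ∨ Q t t') := by
  classical
  obtain ⟨c, D, hP⟩ := hP
  obtain ⟨c', D', hQ⟩ := hQ
  refine ⟨c + c', max D D', fun X F => ?_⟩
  obtain ⟨Φ, h1, h2, h3⟩ := hP X F
  obtain ⟨Φ', h1', h2', h3'⟩ := hQ X F
  refine ⟨fun d J => Φ d J ∪ Φ' d J, fun d J => ?_, fun d hd J => ?_, fun J hJ t t' ht => ?_⟩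
  · calc (Φ d J ∪ Φ' d J).card ≤ (Φ d J).card + (Φ' d J).card := Finset.card_union_le _ _
      _ ≤ c * F.card + c' * F.card := add_le_add (h1 d J) (h1' d J)
      _ = (c + c') * F.card := by ring
  · simp only
    rw [h2 d (le_trans (le_max_left _ _) hd), h2' d (le_trans (le_max_right _ _) hd)]
    simp
  · rcases ht with ht | ht
    · exact h3 J (fun d y hy => hJ d y (Finset.mem_union_left _ hy)) t t' ht
    · exact h3' J (fun d y hy => hJ d y (Finset.mem_union_right _ hy)) t t' ht

theorem StrongMaltsev.Lev.bot {S : StrongMaltsev} {V : Type} :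
    S.Lev (fun _ _ : MTerm S.arity V => False) :=
  ⟨0, 0, fun X F => ⟨fun _ _ => ∅, by simp, by simp, fun _ _ _ _ h => h.elim⟩⟩

theorem StrongMaltsev.Lev.exists_fin {S : StrongMaltsev} {V : Type} {n : ℕ}
    {P : Fin n → MTerm S.arity V → MTerm S.arity V → Prop} (hP : ∀ j, S.Lev (P j)) :
    S.Lev (fun t t' => ∃ j, P j t t') := by
  induction n with
  | zero => exact StrongMaltsev.Lev.bot.mono (fun t t' h => h.choose.elim0)
  | succ n ih =>
    refine ((ih (fun j => hP j.castSucc)).or (hP (Fin.last n))).mono ?_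
    rintro t t' ⟨j, hj⟩
    induction j using Fin.lastCases with
    | last => exact Or.inr hj
    | cast j => exact Or.inl ⟨j, hj⟩

theorem StrongMaltsev.lev_of_prov {S : StrongMaltsev} (hS : S.HeightOne) {V : Type}
    {t t' : MTerm S.arity V} (h : S.Prov t t') : S.Lev (fun s s' => s = t ∧ s' = t') := by
  classical
  induction h with
  | refl t =>
    refine ⟨0, 0, fun X F => ⟨fun _ _ => ∅, by simp, by simp, ?_⟩⟩
    rintro J - s s' ⟨rfl, rfl⟩ x -
    rfl
  | symm _ ih =>
    obtain ⟨c, D, h⟩ := ih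
    refine ⟨c, D, fun X F => ?_⟩
    obtain ⟨Φ, h1, h2, h3⟩ := h X F
    refine ⟨Φ, h1, h2, ?_⟩
    rintro J hJ s s' ⟨rfl, rfl⟩ x hx
    exact (h3 J hJ s' s ⟨rfl, rfl⟩ x hx).symm
  | trans _ _ ih ih' =>
    obtain ⟨c, D, h⟩ := ih.or ih'
    refine ⟨c, D, fun X F => ?_⟩
    obtain ⟨Φ, h1, h2, h3⟩ := h X F
    refine ⟨Φ, h1, h2, ?_⟩
    rintro J hJ s s' ⟨rfl, rfl⟩ x hx
    exact (h3 J hJ _ _ (Or.inl ⟨rfl, rfl⟩) x hx).trans (h3 J hJ _ _ (Or.inr ⟨rfl, rfl⟩) x hx)
  | congr i _ ih =>
    obtain ⟨c, D, h⟩ := StrongMaltsev.Lev.exists_fin ih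
    refine ⟨c, D + 1, fun X F => ?_⟩
    obtain ⟨Φ, h1, h2, h3⟩ := h X F
    refine ⟨fun d J => match d with | 0 => ∅ | d + 1 => Φ d J, ?_, ?_, ?_⟩
    · intro d J
      cases d with
      | zero => simp
      | succ d => exact h1 d J
    · intro d hd J
      cases d with
      | zero => rfl
      | succ d => exact h2 d (by omega) J
    · rintro J hJ s s' ⟨rfl, rfl⟩ x hx
      change J 0 i _ = J 0 i _
      congr 1
      funext j
      refine h3 (fun d => J (d + 1)) (fun d y hy => ?_) _ _ ⟨j, rfl, rfl⟩ x hx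
      exact hJ (d + 1) y hy
  | ax e he σ =>
    obtain ⟨⟨i, g, h1⟩, ⟨j, g', h2⟩⟩ := hS e he
    refine ⟨1, 1, fun X F => ?_⟩
    refine ⟨fun d J => match d with
      | 0 => F.image (fun x v => (σ v).leval J x)
      | d + 1 => ∅, ?_, ?_, ?_⟩
    · intro d J
      cases d with
      | zero => simpa using Finset.card_image_le
      | succ d => simp
    · intro d hd J
      cases d with
      | zero => omega
      | succ d => rfl
    · rintro J hJ s s' ⟨rfl, rfl⟩ x hx
      have := hJ 0 (fun v => (σ v).leval (fun d => J (d + 1)) x)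
        (Finset.mem_image.2 ⟨x, hx, rfl⟩) e he
      rw [h1, h2] at this ⊢
      exact this

/-- Existence of level-wise good interpretations. -/
theorem StrongMaltsev.exists_levels {S : StrongMaltsev} {A : Alg} {K : ℕ}
    (hA : ∀ F : Finset (Fin S.numVar → A.carrier), F.card ≤ K → S.SatOn A F) (D : ℕ) :
    ∀ Φ : ℕ → (ℕ → (i : Fin S.numSym) → (Fin (S.arity i) → A.carrier) → A.carrier) →
        Finset (Fin S.numVar → A.carrier),
      (∀ d J, (Φ d J).card ≤ K) → (∀ d, D ≤ d → ∀ J, Φ d J = ∅) →
      ∃ J : ℕ → (i : Fin S.numSym) → (Fin (S.arity i) → A.carrier) → A.carrier,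
        (∀ d i, A.Clo (S.arity i) (J d i)) ∧
        ∀ d, ∀ y ∈ Φ d (fun e => J (e + (d + 1))), S.GoodAt (J d) y := by
  induction D with
  | zero =>
    intro Φ _ h2
    obtain ⟨I, hI, -⟩ := hA ∅ (by simp)
    refine ⟨fun _ => I, fun _ => hI, fun d y hy => ?_⟩
    rw [h2 d (Nat.zero_le _)] at hy
    simp at hy
  | succ D ih =>
    intro Φ h1 h2
    obtain ⟨J, hJ, hJ'⟩ := ih (fun d => Φ (d + 1)) (fun d => h1 (d + 1))
      (fun d hd => h2 (d + 1) (by omega))
    obtain ⟨I, hI, hI'⟩ := hA (Φ 0 J) (h1 0 J)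
    refine ⟨fun d => match d with | 0 => I | d + 1 => J d, ?_, ?_⟩
    · intro d
      cases d with
      | zero => exact hI
      | succ d => exact hJ d
    · intro d
      cases d with
      | zero =>
        intro y hy
        exact hI' y (Finset.mem_coe.2 hy)
      | succ d =>
        intro y hy
        exact hJ' d y hy

/-- Transfer: for height one conditions with `T ≤ S`, local satisfaction of `S` implies local
satisfaction of `T`. -/
theorem StrongMaltsev.transfer {S T : StrongMaltsev} (hS : S.HeightOne) (hT : T.HeightOne)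
    (h : T.Le S) (l : ℕ) :
    ∃ K : ℕ, ∀ A : Alg,
      (∀ F : Finset (Fin S.numVar → A.carrier), F.card ≤ K → S.SatOn A F) →
      ∀ F : Finset (Fin T.numVar → A.carrier), F.card ≤ l → T.SatOn A F := by
  classical
  obtain ⟨t, ht⟩ := StrongMaltsev.exists_terms h
  -- the equations to be satisfied
  have hlev : S.Lev (V := ℕ) (fun s s' => ∃ k : Fin T.identities.length,
      ∃ (i j : Fin T.numSym) (g : Fin (T.arity i) → Fin T.numVar)
        (g' : Fin (T.arity j) → Fin T.numVar),
        T.identities.get k =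
          (MTerm.app i (fun a => .var (g a)), MTerm.app j (fun a => .var (g' a))) ∧
        s = (t i).subst (fun a => .var (g a).val) ∧
        s' = (t j).subst (fun a => .var (g' a).val)) := by
    apply StrongMaltsev.Lev.exists_fin
    intro k
    obtain ⟨⟨i, g, h1⟩, ⟨j, g', h2⟩⟩ := hT (T.identities.get k) (List.get_mem _ _)
    have hk : T.identities.get k =
        (MTerm.app i (fun a => .var (g a)), MTerm.app j (fun a => .var (g' a))) :=
      Prod.ext h1 h2
    have hmem : (MTerm.app i (fun a => .var (g a)), MTerm.app j (fun a => .var (g' a))) ∈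
        T.identities := hk ▸ List.get_mem _ _
    refine (StrongMaltsev.lev_of_prov hS (ht i j g g' hmem)).mono ?_
    rintro s s' ⟨i1, j1, g1, g1', hk1, hs, hs'⟩
    rw [hk] at hk1
    have e1 := congrArg Prod.fst hk1
    have e2 := congrArg Prod.snd hk1
    simp only [MTerm.app.injEq] at e1 e2
    obtain ⟨rfl, e1⟩ := e1
    obtain ⟨rfl, e2⟩ := e2
    have e1' := eq_of_heq e1
    have e2' := eq_of_heq e2
    have hg : g = g1 := by
      funext a
      have := congrFun e1' a
      simpa using this
    have hg' : g' = g1' := by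
      funext a
      have := congrFun e2' a
      simpa using this
    subst hg hg'
    exact ⟨hs, hs'⟩
  obtain ⟨c, D, hlev⟩ := hlev
  refine ⟨c * l, fun A hA F hF => ?_⟩
  obtain ⟨a0⟩ := A.nonempty
  let ext : (Fin T.numVar → A.carrier) → ℕ → A.carrier :=
    fun x m => if hm : m < T.numVar then x ⟨m, hm⟩ else a0
  have hext : ∀ x (v : Fin T.numVar), ext x v.val = x v := by
    intro x v
    simp [ext, v.isLt]
  obtain ⟨Φ, h1, h2, h3⟩ := hlev A.carrier (F.image ext)
  have hcard : c * (F.image ext).card ≤ c * l :=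
    Nat.mul_le_mul_left c (le_trans Finset.card_image_le hF)
  obtain ⟨J, hJ, hJ'⟩ := StrongMaltsev.exists_levels hA D Φ
    (fun d J => le_trans (h1 d J) hcard) h2
  refine ⟨fun i y => (t i).leval J y, fun i => Alg.Clo.leval (t i) hJ, ?_⟩
  intro x hx e he
  obtain ⟨⟨i, g, e1⟩, ⟨j, g', e2⟩⟩ := hT e he
  obtain ⟨k, hk⟩ := List.get_of_mem he
  have h4 := h3 J hJ' _ _ ⟨k, i, j, g, g', hk.trans (Prod.ext e1 e2), rfl, rfl⟩ (ext x)
    (Finset.mem_image_of_mem _ (Finset.mem_coe.1 hx))
  rw [MTerm.leval_rename, MTerm.leval_rename] at h4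
  simp only [hext] at h4
  rw [e1, e2]
  exact h4

end Pool.Agent.Helper85_LG
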