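import Pool.Agent.Helper85_LG.Basic

set_option autoImplicit false

namespace Pool.Agent.Helper85_LG

/-- The condition `f(x,y) ≈ f(y,x)`. -/
def commS : StrongMaltsev where
  numSym := 1
  arity := ![2]
  numVar := 2
  identities :=
    [(.app 0 ![.var 0, .var 1], .app 0 ![.var 1, .var 0])]

/-- The condition `s(x,x,y,z) ≈ f(y,z)`, `s(x,e(x),y,z) ≈ f(z,y)`, `e(e(x)) ≈ e(x)`; the symbols
`f, s, e` are numbered `0, 1, 2` and the variables `x, y, z` are numbered `0, 1, 2`. -/
def hardS : StrongMaltsev where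
  numSym := 3
  arity := ![2, 4, 1]
  numVar := 3
  identities :=
    [(.app 1 ![.var 0, .var 0, .var 1, .var 2], .app 0 ![.var 1, .var 2]),
     (.app 1 ![.var 0, .app 2 ![.var 0], .var 1, .var 2], .app 0 ![.var 2, .var 1]),
     (.app 2 ![.app 2 ![.var 0]], .app 2 ![.var 0])]

theorem commS_satOn_iff {A : Alg} {F : Set (Fin 2 → A.carrier)} :
    commS.SatOn A F ↔ ∃ f : (Fin 2 → A.carrier) → A.carrier, A.Clo 2 f ∧
      ∀ x ∈ F, f ![x 0, x 1] = f ![x 1, x 0] := by
  have key : ∀ (I : (i : Fin 1) → (Fin (![2] i) → A.carrier) → A.carrier) (x : Fin 2 → A.carrier),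
      (∀ e ∈ commS.identities, e.1.eval I x = e.2.eval I x) ↔
        I (0 : Fin 1) ![x 0, x 1] = I (0 : Fin 1) ![x 1, x 0] := by
    intro I x
    have e1 : MTerm.eval (ar := ![2]) I x (.app 0 ![.var 0, .var 1]) = I (0 : Fin 1) ![x 0, x 1] :=
      congrArg (I (0 : Fin 1)) (funext fun (j : Fin 2) => by fin_cases j <;> rfl)
    have e2 : MTerm.eval (ar := ![2]) I x (.app 0 ![.var 1, .var 0]) = I (0 : Fin 1) ![x 1, x 0] :=
      congrArg (I (0 : Fin 1)) (funext fun (j : Fin 2) => by fin_cases j <;> rfl)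
    rw [← e1, ← e2]
    constructor
    · intro h
      exact h _ (List.mem_cons_self ..)
    · intro h e he
      rcases List.mem_singleton.1 he with rfl
      exact h
  constructor
  · rintro ⟨I, hI, h⟩
    exact ⟨I (0 : Fin 1), hI (0 : Fin 1), fun x hx => (key I x).1 (h x hx)⟩
  · rintro ⟨f, hf, h⟩
    let I : (i : Fin 1) → (Fin (![2] i) → A.carrier) → A.carrier := fun i => match i with | 0 => f
    have hI : ∀ i, A.Clo (![2] i) (I i) := fun i => match i with | 0 => hf
    exact ⟨I, hI, fun x hx => (key I x).2 (h x hx)⟩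

theorem hardS_satOn_iff {A : Alg} {F : Set (Fin 3 → A.carrier)} :
    hardS.SatOn A F ↔ ∃ (f : (Fin 2 → A.carrier) → A.carrier) (s : (Fin 4 → A.carrier) → A.carrier)
      (e : (Fin 1 → A.carrier) → A.carrier), A.Clo 2 f ∧ A.Clo 4 s ∧ A.Clo 1 e ∧
      ∀ x ∈ F, s ![x 0, x 0, x 1, x 2] = f ![x 1, x 2] ∧
        s ![x 0, e ![x 0], x 1, x 2] = f ![x 2, x 1] ∧ e ![e ![x 0]] = e ![x 0] := by
  have key : ∀ (I : (i : Fin 3) → (Fin (![2, 4, 1] i) → A.carrier) → A.carrier)
      (x : Fin 3 → A.carrier),
      (∀ e ∈ hardS.identities, e.1.eval I x = e.2.eval I x) ↔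
        (I (1 : Fin 3) ![x 0, x 0, x 1, x 2] = I (0 : Fin 3) ![x 1, x 2] ∧
          I (1 : Fin 3) ![x 0, I (2 : Fin 3) ![x 0], x 1, x 2] = I (0 : Fin 3) ![x 2, x 1] ∧
          I (2 : Fin 3) ![I (2 : Fin 3) ![x 0]] = I (2 : Fin 3) ![x 0]) := by
    intro I x
    have e0 : MTerm.eval (ar := ![2, 4, 1]) I x (.app 2 ![.var 0]) = I (2 : Fin 3) ![x 0] :=
      congrArg (I (2 : Fin 3)) (funext fun (j : Fin 1) => by fin_cases j <;> rfl)
    have e1 : MTerm.eval (ar := ![2, 4, 1]) I x (.app 1 ![.var 0, .var 0, .var 1, .var 2]) =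
        I (1 : Fin 3) ![x 0, x 0, x 1, x 2] :=
      congrArg (I (1 : Fin 3)) (funext fun (j : Fin 4) => by fin_cases j <;> rfl)
    have e2 : MTerm.eval (ar := ![2, 4, 1]) I x (.app 0 ![.var 1, .var 2]) =
        I (0 : Fin 3) ![x 1, x 2] :=
      congrArg (I (0 : Fin 3)) (funext fun (j : Fin 2) => by fin_cases j <;> rfl)
    have e3 : MTerm.eval (ar := ![2, 4, 1]) I x
        (.app 1 ![.var 0, .app 2 ![.var 0], .var 1, .var 2]) =
        I (1 : Fin 3) ![x 0, I (2 : Fin 3) ![x 0], x 1, x 2] :=
      congrArg (I (1 : Fin 3)) (funext fun (j : Fin 4) => by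
        fin_cases j
        · rfl
        · exact e0
        · rfl
        · rfl)
    have e4 : MTerm.eval (ar := ![2, 4, 1]) I x (.app 0 ![.var 2, .var 1]) =
        I (0 : Fin 3) ![x 2, x 1] :=
      congrArg (I (0 : Fin 3)) (funext fun (j : Fin 2) => by fin_cases j <;> rfl)
    have e5 : MTerm.eval (ar := ![2, 4, 1]) I x (.app 2 ![.app 2 ![.var 0]]) =
        I (2 : Fin 3) ![I (2 : Fin 3) ![x 0]] :=
      congrArg (I (2 : Fin 3)) (funext fun (j : Fin 1) => by
        fin_cases j
        exact e0)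
    rw [← e1, ← e2, ← e3, ← e4, ← e5, ← e0]
    constructor
    · intro h
      exact ⟨h _ (List.mem_cons_self ..), h _ (List.mem_cons_of_mem _ (List.mem_cons_self ..)),
        h _ (List.mem_cons_of_mem _ (List.mem_cons_of_mem _ (List.mem_cons_self ..)))⟩
    · rintro ⟨h1, h2, h3⟩ e he
      rcases List.mem_cons.1 he with rfl | he
      · exact h1
      rcases List.mem_cons.1 he with rfl | he
      · exact h2
      rcases List.mem_singleton.1 he with rfl
      exact h3
  constructor
  · rintro ⟨I, hI, h⟩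
    exact ⟨I (0 : Fin 3), I (1 : Fin 3), I (2 : Fin 3), hI (0 : Fin 3), hI (1 : Fin 3),
      hI (2 : Fin 3), fun x hx => (key I x).1 (h x hx)⟩
  · rintro ⟨f, s, e, hf, hs, he, h⟩
    let I : (i : Fin 3) → (Fin (![2, 4, 1] i) → A.carrier) → A.carrier :=
      fun i => match i with | 0 => f | 1 => s | 2 => e
    have hI : ∀ i, A.Clo (![2, 4, 1] i) (I i) :=
      fun i => match i with | 0 => hf | 1 => hs | 2 => he
    exact ⟨I, hI, fun x hx => (key I x).2 (h x hx)⟩

/-- `commS` has the `1`-local-global property. -/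
theorem commS_one_localGlobal : commS.KLocalGlobal 1 := by
  classical
  intro A hcard hloc
  change ∀ F : Finset (Fin 2 → A.carrier), F.card = 1 →
    commS.SatOn A (F : Set (Fin 2 → A.carrier)) at hloc
  change ∀ F : Finset (Fin 2 → A.carrier), commS.SatOn A (F : Set (Fin 2 → A.carrier))
  intro F
  induction F using Finset.induction_on with
  | empty =>
    exact commS_satOn_iff.2 ⟨fun x => x 0, Alg.Clo.proj _, fun x hx => absurd hx (by simp)⟩
  | insert p F hp ih =>
    obtain ⟨f, hf, hfF⟩ := commS_satOn_iff.1 ih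
    obtain ⟨g, hg, hgF⟩ := commS_satOn_iff.1
      (hloc ({![f ![p 0, p 1], f ![p 1, p 0]]} : Finset (Fin 2 → A.carrier)) (by simp))
    have hg1 : g ![f ![p 0, p 1], f ![p 1, p 0]] = g ![f ![p 1, p 0], f ![p 0, p 1]] :=
      hgF ![f ![p 0, p 1], f ![p 1, p 0]] (by simp)
    refine commS_satOn_iff.2 ⟨fun x => g ![f x, f ![x 1, x 0]], ?_, ?_⟩
    · have := hg.subst (n := 2) (g := ![fun x => f x, fun x => f ![x 1, x 0]]) (by
        intro j
        fin_cases j
        · exact hf
        · have := hf.subst (n := 2) (g := ![fun x => x 1, fun x => x 0]) (by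
            intro j
            fin_cases j
            · exact Alg.Clo.proj 1
            · exact Alg.Clo.proj 0)
          convert this using 2
          rename_i x
          change f _ = f _
          congr 1
          funext j
          fin_cases j <;> rfl)
      convert this using 2
      rename_i x
      congr 1
      funext j
      fin_cases j <;> rfl
    · intro x hx
      change g ![f ![x 0, x 1], f ![x 1, x 0]] = g ![f ![x 1, x 0], f ![x 0, x 1]]
      rcases Finset.mem_insert.1 (Finset.mem_coe.1 hx) with rfl | hx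
      · exact hg1
      · rw [hfF x (Finset.mem_coe.2 hx)]

/-- `hardS` and `commS` hold in the same algebras. -/
theorem comm_equiv_hard : commS.Equivalent hardS := by
  constructor
  · intro A hA
    obtain ⟨f, s, e, hf, hs, he, h⟩ := hardS_satOn_iff.1 hA
    refine commS_satOn_iff.2 ⟨f, hf, fun x _ => ?_⟩
    obtain ⟨h1, -, -⟩ := h ![e ![x 0], x 0, x 1] (Set.mem_univ _)
    obtain ⟨-, h2, -⟩ := h ![e ![x 0], x 0, x 1] (Set.mem_univ _)
    obtain ⟨-, -, h3⟩ := h ![x 0, x 0, x 1] (Set.mem_univ _)
    simp only [Matrix.cons_val_zero, Matrix.cons_val_one, Matrix.cons_val] at h1 h2 h3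
    rw [h3] at h2
    rw [← h1, h2]
  · intro A hA
    obtain ⟨f, hf, h⟩ := commS_satOn_iff.1 hA
    refine hardS_satOn_iff.2 ⟨f, fun x => f ![x 2, x 3], fun x => x 0, hf, ?_, Alg.Clo.proj _, ?_⟩
    · have := hf.subst (n := 4) (g := ![fun x => x 2, fun x => x 3]) (by
        intro j
        fin_cases j
        · exact Alg.Clo.proj 2
        · exact Alg.Clo.proj 3)
      convert this using 2
      rename_i x
      congr 1
      funext j
      fin_cases j <;> rfl
    · intro x _
      have := h ![x 1, x 2] (Set.mem_univ _)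
      simp only [Matrix.cons_val_zero, Matrix.cons_val_one] at this
      simp [this]

/-- An endomorphism-like map commuting with the basic operations commutes with the clone. -/
theorem Alg.Clo.commute {A : Alg} {σ : A.carrier → A.carrier}
    (hσ : ∀ (o : A.Op) (x : Fin (A.opArity o) → A.carrier),
      A.op o (fun j => σ (x j)) = σ (A.op o x))
    {n : ℕ} {f : (Fin n → A.carrier) → A.carrier} (hf : A.Clo n f) (x : Fin n → A.carrier) :
    f (fun j => σ (x j)) = σ (f x) := by
  induction hf with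
  | proj i => rfl
  | comp o g hg ih =>
    change A.op o (fun j => g j _) = σ (A.op o (fun j => g j x))
    rw [← hσ]
    congr 1
    funext j
    exact ih j

/-- The swap of the two copies. -/
def swapMap (m : ℕ) (a : Fin m × Bool) : Fin m × Bool := (a.1, !a.2)

theorem swapMap_inj (m : ℕ) {a b : Fin m × Bool} : swapMap m a = swapMap m b ↔ a = b := by
  constructor
  · intro hh
    have ha := congrArg Prod.fst hh
    have hb := congrArg Prod.snd hh
    simp only [swapMap, Bool.not_inj_iff] at ha hb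
    exact Prod.ext ha hb
  · rintro rfl
    rfl

theorem swapMap_ne (m : ℕ) (a : Fin m × Bool) : swapMap m a ≠ a := by
  intro h
  have := congrArg Prod.snd h
  simp [swapMap] at this

/-- The algebra on `Fin m × Bool` with the basic operations `s` (`if x = w then y else z`) and,
for each `c`, `e_c (a, i) = (c, i)`. -/
def swapAlg (m : ℕ) [NeZero m] : Alg where
  carrier := Fin m × Bool
  nonempty := ⟨(0, true)⟩
  Op := Option (Fin m)
  opArity := fun o => match o with | none => 4 | some _ => 1
  op := fun o => match o with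
    | none => fun x => if x 0 = x 1 then x 2 else x 3
    | some c => fun x => (c, (x 0).2)

/-- All term operations of `swapAlg` commute with the swap of the two copies. -/
theorem swapAlg_clo (m : ℕ) [NeZero m] {n : ℕ} {f : (Fin n → Fin m × Bool) → Fin m × Bool}
    (hf : (swapAlg m).Clo n f) (x : Fin n → Fin m × Bool) :
    f (fun j => swapMap m (x j)) = swapMap m (f x) := by
  refine Alg.Clo.commute (A := swapAlg m) (σ := swapMap m) ?_ hf x
  intro o
  cases o with
  | none =>
    change ∀ x : Fin 4 → Fin m × Bool,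
      (if swapMap m (x 0) = swapMap m (x 1) then swapMap m (x 2) else swapMap m (x 3)) =
        swapMap m (if x 0 = x 1 then x 2 else x 3)
    intro x
    by_cases hxy : x 0 = x 1
    · rw [if_pos hxy, if_pos (by rw [hxy])]
    · rw [if_neg hxy, if_neg (fun hh => hxy ((swapMap_inj m).1 hh))]
  | some c =>
    change ∀ x : Fin 1 → Fin m × Bool, (c, !(x 0).2) = (c, !(x 0).2)
    intro x
    rfl

theorem swapAlg_not_comm (m : ℕ) [NeZero m] : ¬ commS.Sat (swapAlg m) := by
  intro h
  obtain ⟨f, hf, h⟩ := commS_satOn_iff.1 h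
  change (Fin 2 → Fin m × Bool) → Fin m × Bool at f
  change ∀ x ∈ (Set.univ : Set (Fin 2 → Fin m × Bool)), f ![x 0, x 1] = f ![x 1, x 0] at h
  have h1 : f ![((0 : Fin m), true), ((0 : Fin m), false)] =
      f ![((0 : Fin m), false), ((0 : Fin m), true)] :=
    h ![((0 : Fin m), true), ((0 : Fin m), false)] (Set.mem_univ _)
  have h2 := swapAlg_clo m hf ![((0 : Fin m), true), ((0 : Fin m), false)]
  have h3 : (fun j : Fin 2 => swapMap m (![((0 : Fin m), true), ((0 : Fin m), false)] j)) =
      ![((0 : Fin m), false), ((0 : Fin m), true)] := by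
    funext j
    fin_cases j <;> rfl
  rw [h3] at h2
  exact swapMap_ne m _ (h2.symm.trans h1.symm)

theorem swapAlg_local (m k : ℕ) [NeZero m] (hk : k < m)
    (F : Finset (Fin 3 → Fin m × Bool)) (hF : F.card = k) :
    hardS.SatOn (swapAlg m) (F : Set (Fin 3 → Fin m × Bool)) := by
  classical
  obtain ⟨c, hc⟩ : ∃ c : Fin m, c ∉ F.image (fun x => (x 0).1) := by
    by_contra hcon
    push Not at hcon
    have : (Finset.univ : Finset (Fin m)) ⊆ F.image (fun x => (x 0).1) := fun c _ => hcon c
    have h1 := Finset.card_le_card this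
    have h2 := Finset.card_image_le (s := F) (f := fun x => (x 0).1)
    simp only [Finset.card_univ, Fintype.card_fin] at h1
    omega
  refine hardS_satOn_iff.2 ⟨fun x => x 0, (swapAlg m).op none, (swapAlg m).op (some c),
    Alg.Clo.proj 0, Alg.Clo.basic (A := swapAlg m) none,
    Alg.Clo.basic (A := swapAlg m) (some c), ?_⟩
  change ∀ x ∈ (F : Set (Fin 3 → Fin m × Bool)),
    (if x 0 = x 0 then x 1 else x 2) = x 1 ∧
      (if x 0 = (c, (x 0).2) then x 1 else x 2) = x 2 ∧ (c, (x 0).2) = (c, (x 0).2)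
  intro x hx
  have hne : x 0 ≠ (c, (x 0).2) := by
    intro hh
    apply hc
    rw [Finset.mem_image]
    exact ⟨x, Finset.mem_coe.1 hx, by rw [hh]⟩
  exact ⟨if_pos rfl, if_neg hne, rfl⟩

/-- `hardS` fails the local-global property, already among finite algebras with finitely many
basic operations. -/
theorem hardS_witness (k : ℕ) : ∃ A : Alg, Finite A.carrier ∧ Finite A.Op ∧
    (k : Cardinal) ≤ Cardinal.mk A.carrier ^ hardS.numVar ∧
    (∀ F : Finset (Fin hardS.numVar → A.carrier), F.card = k → hardS.SatOn A F) ∧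
    ¬ hardS.Sat A := by
  refine ⟨swapAlg (k + 1), ?_, ?_, ?_, ?_, ?_⟩
  · change Finite (Fin (k + 1) × Bool)
    infer_instance
  · change Finite (Option (Fin (k + 1)))
    infer_instance
  · have h1 : Cardinal.mk (swapAlg (k + 1)).carrier = ((2 * (k + 1) : ℕ) : Cardinal) := by
      change Cardinal.mk (Fin (k + 1) × Bool) = _
      rw [Cardinal.mk_fintype, Fintype.card_prod, Fintype.card_fin, Fintype.card_bool, mul_comm]
    rw [h1]
    change (k : Cardinal) ≤ ((2 * (k + 1) : ℕ) : Cardinal) ^ 3
    have : k ≤ (2 * (k + 1)) ^ 3 := by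
      calc k ≤ 2 * (k + 1) := by omega
        _ = (2 * (k + 1)) ^ 1 := (pow_one _).symm
        _ ≤ (2 * (k + 1)) ^ 3 := Nat.pow_le_pow_right (by omega) (by norm_num)
    exact_mod_cast this
  · intro F hF
    exact swapAlg_local (k + 1) k (by omega) F hF
  · intro h
    exact swapAlg_not_comm (k + 1) (comm_equiv_hard.1 _ h)

theorem hardS_not_localGlobal : ¬ hardS.LocalGlobal := by
  rintro ⟨k, -, hk⟩
  obtain ⟨A, hfin, -, h1, h2, h3⟩ := hardS_witness k
  apply h3
  have : Finite A.carrier := hfin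
  have : Finite (Fin hardS.numVar → A.carrier) := Pi.finite
  have := Fintype.ofFinite (Fin hardS.numVar → A.carrier)
  have := hk A h1 h2 Finset.univ
  simpa [StrongMaltsev.Sat] using this

end Pool.Agent.Helper85_LG
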