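import Pool.Agent.Helper85_LG.Free

set_option autoImplicit false

/-!
Linear conditions: splitting off the symbols that are interpreted by projections.
-/

namespace Pool.Agent.Helper85_LG

/-- If some symbols are replaced by projections (`pr i = some j`: the symbol `f_i` becomes the
projection to coordinate `j`), the variable to which a term reduces, if any. -/
def MTerm.red {m : ℕ} {ar : Fin m → ℕ} {V : Type} (pr : (i : Fin m) → Option (Fin (ar i))) :
    MTerm ar V → Option V
  | .var v => some v
  | .app i ts => (pr i).bind (fun j => (ts j).red pr)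

theorem MTerm.eval_of_red {m : ℕ} {ar : Fin m → ℕ} {V X : Type}
    {pr : (i : Fin m) → Option (Fin (ar i))} {I : (i : Fin m) → (Fin (ar i) → X) → X}
    (hI : ∀ i j, pr i = some j → I i = fun y => y j) {t : MTerm ar V} {v : V}
    (h : t.red pr = some v) (x : V → X) : t.eval I x = x v := by
  induction t with
  | var w =>
    simp only [MTerm.red, Option.some.injEq] at h
    rw [← h]
    rfl
  | app i ts ih =>
    simp only [MTerm.red, Option.bind_eq_some_iff] at h
    obtain ⟨j, hj, h⟩ := h
    change I i _ = _
    rw [hI i j hj]
    exact ih j h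

namespace StrongMaltsev

/-- A choice of projections for some of the symbols under which every identity becomes either
`x ≈ x` or an identity between the remaining symbols. -/
def ValidSplit (S : StrongMaltsev) (pr : (i : Fin S.numSym) → Option (Fin (S.arity i))) : Prop :=
  ∀ e ∈ S.identities, e.1.red pr = e.2.red pr

/-- The condition consisting of the identities between the remaining symbols. -/
def restrict (S : StrongMaltsev) (pr : (i : Fin S.numSym) → Option (Fin (S.arity i))) :
    StrongMaltsev where
  numSym := S.numSym
  arity := S.arity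
  numVar := S.numVar
  identities := S.identities.filter (fun e => (e.1.red pr).isNone)

theorem red_none_of_linear {m : ℕ} {ar : Fin m → ℕ} {V : Type}
    {pr : (i : Fin m) → Option (Fin (ar i))} {t : MTerm ar V} (ht : t.Linear)
    (h : t.red pr = none) :
    ∃ (i : Fin m) (g : Fin (ar i) → V), t = .app i (fun j => .var (g j)) ∧ pr i = none := by
  rcases ht with ⟨v, rfl⟩ | ⟨i, g, rfl⟩
  · simp [MTerm.red] at h
  · refine ⟨i, g, rfl, ?_⟩
    simp only [MTerm.red, Option.bind_eq_none_iff] at h
    by_contra hcon
    obtain ⟨j, hj⟩ := Option.ne_none_iff_exists'.1 hcon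
    have := h j hj
    simp at this

theorem satOn_restrict_iff {S : StrongMaltsev} (hS : S.Linear)
    {pr : (i : Fin S.numSym) → Option (Fin (S.arity i))} (hpr : S.ValidSplit pr) {A : Alg}
    {F : Set (Fin S.numVar → A.carrier)} :
    (S.restrict pr).SatOn A F ↔ S.SatOn A F := by
  classical
  constructor
  · rintro ⟨I, hI, h⟩
    change (i : Fin S.numSym) → (Fin (S.arity i) → A.carrier) → A.carrier at I
    change ∀ i, A.Clo (S.arity i) (I i) at hI
    let I' : (i : Fin S.numSym) → (Fin (S.arity i) → A.carrier) → A.carrier :=
      fun i => match pr i with | some j => fun y => y j | none => I i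
    have h1 : ∀ i j, pr i = some j → I' i = fun y => y j := by
      intro i j hij
      simp only [I', hij]
    have h2 : ∀ i, pr i = none → I' i = I i := by
      intro i hi
      simp only [I', hi]
    refine ⟨I', fun i => ?_, fun x hx e he => ?_⟩
    · cases hi : pr i with
      | none => rw [h2 i hi]; exact hI i
      | some j => rw [h1 i j hi]; exact Alg.Clo.proj j
    · cases he1 : e.1.red pr with
      | some v =>
        have he2 : e.2.red pr = some v := by rw [← hpr e he, he1]
        rw [MTerm.eval_of_red h1 he1, MTerm.eval_of_red h1 he2]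
      | none =>
        have he2 : e.2.red pr = none := by rw [← hpr e he, he1]
        obtain ⟨i, g, e1, hi⟩ := red_none_of_linear (hS e he).1 he1
        obtain ⟨j, g', e2, hj⟩ := red_none_of_linear (hS e he).2 he2
        have h3 : e.1.eval I x = e.2.eval I x := by
          refine h x hx e ?_
          exact List.mem_filter.2 ⟨he, by simp [he1]⟩
        rw [e1, e2] at h3 ⊢
        change I' i _ = I' j _
        rw [h2 i hi, h2 j hj]
        exact h3
  · rintro ⟨I, hI, h⟩
    exact ⟨I, hI, fun x hx e he => h x hx e (List.mem_of_mem_filter he)⟩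

theorem restrict_heightOne {S : StrongMaltsev} (hS : S.Linear)
    {pr : (i : Fin S.numSym) → Option (Fin (S.arity i))} (hpr : S.ValidSplit pr) :
    (S.restrict pr).HeightOne := by
  intro e he
  change MTerm S.arity (Fin S.numVar) × MTerm S.arity (Fin S.numVar) at e
  obtain ⟨he, he'⟩ := List.mem_filter.1 he
  have he1 : e.1.red pr = none := by
    simpa using he'
  have he2 : e.2.red pr = none := by rw [← hpr e he, he1]
  obtain ⟨i, g, e1, -⟩ := red_none_of_linear (hS e he).1 he1
  obtain ⟨j, g', e2, -⟩ := red_none_of_linear (hS e he).2 he2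
  exact ⟨⟨i, g, e1⟩, ⟨j, g', e2⟩⟩

theorem restrict_localGlobal_iff {S : StrongMaltsev} (hS : S.Linear)
    {pr : (i : Fin S.numSym) → Option (Fin (S.arity i))} (hpr : S.ValidSplit pr) :
    (S.restrict pr).LocalGlobal ↔ S.LocalGlobal := by
  constructor
  · rintro ⟨k, hk, h⟩
    refine ⟨k, hk, fun A hA hF F => ?_⟩
    exact (satOn_restrict_iff hS hpr).1 (h A hA (fun F hFk => (satOn_restrict_iff hS hpr).2
      (hF F hFk)) F)
  · rintro ⟨k, hk, h⟩
    refine ⟨k, hk, fun A hA hF F => ?_⟩
    exact (satOn_restrict_iff hS hpr).2 (h A hA (fun F hFk => (satOn_restrict_iff hS hpr).1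
      (hF F hFk)) F)

/-- In an algebra whose idempotent term operations are projections, a linear condition can only
be satisfied through a valid split. -/
theorem exists_validSplit_of_sat {S : StrongMaltsev} (hS : S.Linear) {A : Alg}
    (hA : ∃ a b : A.carrier, a ≠ b)
    (hid : ∀ (n : ℕ) (f : (Fin n → A.carrier) → A.carrier), A.Clo n f →
      (∀ a, f (fun _ => a) = a) → ∃ j : Fin n, f = fun y => y j)
    (h : S.Sat A) : ∃ pr, S.ValidSplit pr := by
  classical
  obtain ⟨a, b, hab⟩ := hA
  obtain ⟨I, hI, h⟩ := h
  let pr : (i : Fin S.numSym) → Option (Fin (S.arity i)) := fun i =>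
    if hi : ∃ j : Fin (S.arity i), I i = fun y => y j then some hi.choose else none
  have hpr : ∀ i j, pr i = some j → I i = fun y => y j := by
    intro i j hij
    by_cases hi : ∃ j : Fin (S.arity i), I i = fun y => y j
    · have h1 : pr i = some hi.choose := dif_pos hi
      rw [h1, Option.some.injEq] at hij
      rw [← hij]
      exact hi.choose_spec
    · have h1 : pr i = none := dif_neg hi
      rw [h1] at hij
      simp at hij
  have hsep : ∀ v w : Fin S.numVar, (∀ x : Fin S.numVar → A.carrier, x v = x w) → v = w := by
    intro v w hvw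
    by_contra hne
    have := hvw (fun u => if u = v then a else b)
    simp only [if_pos, if_neg (Ne.symm hne)] at this
    exact hab this
  have key : ∀ s t : MTerm S.arity (Fin S.numVar), t.Linear →
      (∀ x : Fin S.numVar → A.carrier, s.eval I x = t.eval I x) → ∀ v, s.red pr = some v →
        t.red pr = some v := by
    intro s t ht hst v hv
    have h1 : ∀ x : Fin S.numVar → A.carrier, t.eval I x = x v := by
      intro x
      rw [← hst x, MTerm.eval_of_red hpr hv]
    rcases ht with ⟨w, rfl⟩ | ⟨i, g, rfl⟩
    · have : w = v := hsep w v (fun x => h1 x)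
      rw [this]
      rfl
    · have h2 : ∀ c, I i (fun _ => c) = c := fun c => h1 (fun _ => c)
      have h3 := hid _ (I i) (hI i) h2
      have h4 : pr i = some h3.choose := dif_pos h3
      have h5 : I i = fun y => y h3.choose := h3.choose_spec
      have h6 : g h3.choose = v := by
        apply hsep
        intro x
        have := h1 x
        change I i (fun j => x (g j)) = x v at this
        rw [h5] at this
        exact this
      change (pr i).bind _ = some v
      rw [h4]
      exact congrArg some h6
  refine ⟨pr, fun e he => ?_⟩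
  have hee : ∀ x : Fin S.numVar → A.carrier, e.1.eval I x = e.2.eval I x :=
    fun x => h x (Set.mem_univ _) e he
  cases h1 : e.1.red pr with
  | some v => exact (key e.1 e.2 (hS e he).2 hee v h1).symm
  | none =>
    cases h2 : e.2.red pr with
    | none => rfl
    | some v =>
      have := key e.2 e.1 (hS e he).1 (fun x => (hee x).symm) v h2
      rw [h1] at this
      simp at this

/-- `S` has a model (a structure satisfying its identities) with at least two elements. -/
def Consistent (S : StrongMaltsev) : Prop :=
  ∃ (B : Type) (J : (i : Fin S.numSym) → (Fin (S.arity i) → B) → B),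
    (∃ a b : B, a ≠ b) ∧ ∀ (x : Fin S.numVar → B), ∀ e ∈ S.identities, e.1.eval J x = e.2.eval J x

/-- Linear identities are inherited by retracts. -/
theorem eval_retract {S : StrongMaltsev} {X Y : Type}
    {J : (i : Fin S.numSym) → (Fin (S.arity i) → X) → X} {emb : Y → X} {r : X → Y}
    (hr : ∀ y, r (emb y) = y) {t : MTerm S.arity (Fin S.numVar)} (ht : t.Linear)
    (x : Fin S.numVar → Y) :
    t.eval (fun i y => r (J i (fun j => emb (y j)))) x = r (t.eval J (fun v => emb (x v))) := by
  rcases ht with ⟨v, rfl⟩ | ⟨i, g, rfl⟩
  · exact (hr _).symm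
  · rfl

theorem Consistent.exists_model {S : StrongMaltsev} (hS : S.Linear) (h : S.Consistent)
    (Y : Type) [Nonempty Y] :
    ∃ J : (i : Fin S.numSym) → (Fin (S.arity i) → Y) → Y,
      ∀ (x : Fin S.numVar → Y), ∀ e ∈ S.identities, e.1.eval J x = e.2.eval J x := by
  classical
  obtain ⟨B, J, ⟨a, b, hab⟩, hJ⟩ := h
  let emb : Y → (Y → B) := fun y z => if z = y then a else b
  have hemb : Function.Injective emb := by
    intro y y' hyy
    by_contra hne
    have := congrFun hyy y
    simp only [emb, if_pos, if_neg hne] at this
    exact hab this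
  have hr : ∀ y, Function.invFun emb (emb y) = y := Function.leftInverse_invFun hemb
  let J' : (i : Fin S.numSym) → (Fin (S.arity i) → (Y → B)) → (Y → B) :=
    fun i y z => J i (fun j => y j z)
  have hJ' : ∀ (t : MTerm S.arity (Fin S.numVar)) (x : Fin S.numVar → (Y → B)) (z : Y),
      t.eval J' x z = t.eval J (fun v => x v z) := by
    intro t x z
    induction t with
    | var v => rfl
    | app i ts ih =>
      change J i _ = J i _
      congr 1
      funext j
      exact ih j
  refine ⟨fun i y => Function.invFun emb (J' i (fun j => emb (y j))), fun x e he => ?_⟩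
  rw [eval_retract hr (hS e he).1, eval_retract hr (hS e he).2]
  congr 1
  funext z
  rw [hJ', hJ']
  exact hJ _ e he

/-- The one-constant algebra on two elements. -/
def constAlg : Alg where
  carrier := Bool
  nonempty := ⟨true⟩
  Op := Unit
  opArity := fun _ => 0
  op := fun _ _ => true

theorem constAlg_idem (n : ℕ) (f : (Fin n → constAlg.carrier) → constAlg.carrier)
    (hf : constAlg.Clo n f)
    (h : ∀ a, f (fun _ => a) = a) : ∃ j : Fin n, f = fun y => y j := by
  cases hf with
  | proj i => exact ⟨i, rfl⟩
  | comp o g hg =>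
    have h1 : true = false := h false
    exact absurd h1 (by simp)

theorem constAlg_clo_true (n : ℕ) : constAlg.Clo n (fun _ => true) := by
  have := Alg.Clo.comp (A := constAlg) (n := n) () (fun j => Fin.elim0 j) (fun j => Fin.elim0 j)
  exact this

theorem constAlg_sat {S : StrongMaltsev} (hS : S.Linear)
    {pr : (i : Fin S.numSym) → Option (Fin (S.arity i))} (hpr : S.ValidSplit pr) :
    S.Sat constAlg := by
  refine (satOn_restrict_iff hS hpr).1 ?_
  refine ⟨fun i _ => true, fun i => constAlg_clo_true _, fun x _ e he => ?_⟩
  obtain ⟨⟨i, g, h1⟩, ⟨j, g', h2⟩⟩ := restrict_heightOne hS hpr e he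
  rw [h1, h2]
  rfl

theorem exists_validSplit_of_le {S T : StrongMaltsev} (hS : S.Linear) (hT : T.Linear)
    (hTS : T.Le S) (h : ∃ pr, S.ValidSplit pr) : ∃ pr, T.ValidSplit pr := by
  obtain ⟨pr, hpr⟩ := h
  refine exists_validSplit_of_sat hT (A := constAlg) ⟨true, false, Bool.noConfusion⟩ constAlg_idem ?_
  exact hTS _ (constAlg_sat hS hpr)

/-- The algebra used to show that a linear condition with the local-global property has a valid
split: for each `c`, a copy of the operations of `S` living on the complement of `c`. -/
def avoidAlg (S : StrongMaltsev) (N : ℕ) [NeZero N]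
    (op : (c : Fin N) → (i : Fin S.numSym) → (Fin (S.arity i) → Fin N) → Fin N) : Alg where
  carrier := Fin N
  nonempty := ⟨0⟩
  Op := Fin N × Fin S.numSym
  opArity := fun o => S.arity o.2
  op := fun o => op o.1 o.2

theorem exists_validSplit_of_localGlobal {S : StrongMaltsev} (hS : S.Linear)
    (hcons : S.Consistent) {k : ℕ} (hk : 1 ≤ k) (h : S.KLocalGlobal k) :
    ∃ pr, S.ValidSplit pr := by
  classical
  rcases Nat.eq_zero_or_pos S.numVar with hn | hn
  · refine ⟨fun _ => none, fun e he => ?_⟩
    have : ∀ t : MTerm S.arity (Fin S.numVar), t.Linear → t.red (fun _ => none) = none := by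
      rintro t (⟨v, rfl⟩ | ⟨i, g, rfl⟩)
      · exact absurd v.isLt (by omega)
      · rfl
    rw [this _ (hS e he).1, this _ (hS e he).2]
  · set N := k * S.numVar + 2 with hN
    have hne : ∀ c : Fin N, Nonempty {x : Fin N // x ≠ c} := by
      intro c
      have : Nontrivial (Fin N) := Fin.nontrivial_iff_two_le.2 (by omega)
      obtain ⟨x, hx⟩ := exists_ne c
      exact ⟨⟨x, hx⟩⟩
    have hmod : ∀ c : Fin N, ∃ J : (i : Fin S.numSym) →
        (Fin (S.arity i) → {x : Fin N // x ≠ c}) → {x : Fin N // x ≠ c},
        ∀ (x : Fin S.numVar → {x : Fin N // x ≠ c}), ∀ e ∈ S.identities,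
          e.1.eval J x = e.2.eval J x := by
      intro c
      have := hne c
      exact hcons.exists_model hS _
    choose J hJ using hmod
    let op : (c : Fin N) → (i : Fin S.numSym) → (Fin (S.arity i) → Fin N) → Fin N :=
      fun c i x => if hx : ∀ j, x j ≠ c then (J c i (fun j => ⟨x j, hx j⟩)).1
        else (hne c).some.1
    have hop : ∀ c i x, op c i x ≠ c := by
      intro c i x
      by_cases hx : ∀ j, x j ≠ c
      · simp only [op, dif_pos hx]
        exact (J c i (fun j => ⟨x j, hx j⟩)).2
      · simp only [op, dif_neg hx]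
        exact (hne c).some.2
    have hopeval : ∀ (c : Fin N) (t : MTerm S.arity (Fin S.numVar))
        (x : Fin S.numVar → {x : Fin N // x ≠ c}),
        t.eval (op c) (fun v => (x v).1) = (t.eval (J c) x).1 := by
      intro c t x
      induction t with
      | var v => rfl
      | app i ts ih =>
        change op c i (fun j => (ts j).eval (op c) (fun v => (x v).1)) = _
        simp only [ih]
        have hx : ∀ j, ((ts j).eval (J c) x).1 ≠ c := fun j => ((ts j).eval (J c) x).2
        simp only [op, dif_pos hx]
        rfl
    have : NeZero N := ⟨by omega⟩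
    have hsat : S.Sat (avoidAlg S N op) := by
      have h1 := h (avoidAlg S N op) ?_ ?_
      · change ∀ F : Finset (Fin S.numVar → Fin N),
          S.SatOn (avoidAlg S N op) (F : Set (Fin S.numVar → Fin N)) at h1
        have h2 := h1 Finset.univ
        rw [Finset.coe_univ] at h2
        exact h2
      · change (k : Cardinal) ≤ Cardinal.mk (Fin N) ^ S.numVar
        rw [Cardinal.mk_fin]
        have : k ≤ N ^ S.numVar := by
          calc k = k * 1 := (mul_one k).symm
            _ ≤ k * S.numVar := Nat.mul_le_mul_left k hn
            _ ≤ N := by omega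
            _ = N ^ 1 := (pow_one N).symm
            _ ≤ N ^ S.numVar := Nat.pow_le_pow_right (by omega) hn
        exact_mod_cast this
      · change ∀ F : Finset (Fin S.numVar → Fin N), F.card = k →
          S.SatOn (avoidAlg S N op) (F : Set (Fin S.numVar → Fin N))
        intro F hF
        obtain ⟨c, hc⟩ : ∃ c : Fin N, c ∉ F.biUnion (fun x => Finset.univ.image x) := by
          by_contra hcon
          push Not at hcon
          have h1 : (Finset.univ : Finset (Fin N)) ⊆ F.biUnion (fun x => Finset.univ.image x) :=
            fun c _ => hcon c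
          have h2 := Finset.card_le_card h1
          have h3 : (F.biUnion (fun x => Finset.univ.image x)).card ≤ F.card * S.numVar := by
            refine Finset.card_biUnion_le_card_mul _ _ _ (fun x _ => ?_)
            refine le_trans Finset.card_image_le ?_
            simp
          simp only [Finset.card_univ, Fintype.card_fin] at h2
          rw [hF] at h3
          omega
        refine ⟨op c, fun i => Alg.Clo.basic (A := avoidAlg S N op) (c, i), ?_⟩
        intro x hx e he
        have hxc : ∀ v, x v ≠ c := by
          intro v hv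
          apply hc
          rw [Finset.mem_biUnion]
          exact ⟨x, Finset.mem_coe.1 hx, Finset.mem_image.2 ⟨v, Finset.mem_univ _, hv⟩⟩
        have e1 := hopeval c e.1 (fun v => ⟨x v, hxc v⟩)
        have e2 := hopeval c e.2 (fun v => ⟨x v, hxc v⟩)
        have e3 := congrArg Subtype.val (hJ c (fun v => ⟨x v, hxc v⟩) e he)
        exact e1.trans (e3.trans e2.symm)
    refine exists_validSplit_of_sat hS (A := avoidAlg S N op) ?_ ?_ hsat
    · have h01 : (⟨0, by omega⟩ : Fin N) ≠ (⟨1, by omega⟩ : Fin N) := by
        intro h
        exact absurd (congrArg Fin.val h) (by norm_num)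
      exact ⟨_, _, h01⟩
    · intro n f hf hidem
      cases hf with
      | proj i => exact ⟨i, rfl⟩
      | comp o g hg =>
        exact absurd (hidem o.1) (hop o.1 o.2 _)

/-- Inconsistent linear conditions have the local-global property. -/
theorem localGlobal_of_not_consistent {S : StrongMaltsev} (hS : S.Linear)
    (h : ¬ S.Consistent) : S.LocalGlobal := by
  classical
  have hn : 0 < S.numVar := by
    by_contra hn
    apply h
    refine ⟨Bool, fun _ _ => true, ⟨true, false, by simp⟩, fun x e he => ?_⟩
    have : ∀ t : MTerm S.arity (Fin S.numVar), t.Linear → t.eval (fun _ _ => true) x = true := by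
      rintro t (⟨v, rfl⟩ | ⟨i, g, rfl⟩)
      · exact absurd v.isLt (by omega)
      · rfl
    rw [this _ (hS e he).1, this _ (hS e he).2]
  refine ⟨2 ^ S.numVar, Nat.one_le_two_pow, fun A hcard hloc F => ?_⟩
  exfalso
  apply h
  -- two distinct elements
  obtain ⟨a, b, hab⟩ : ∃ a b : A.carrier, a ≠ b := by
    by_contra hcon
    push Not at hcon
    have hsub : Subsingleton A.carrier := ⟨hcon⟩
    have h1 : Cardinal.mk A.carrier ≤ 1 := Cardinal.le_one_iff_subsingleton.2 hsub
    have h2 : Cardinal.mk A.carrier ^ S.numVar ≤ 1 := by
      calc Cardinal.mk A.carrier ^ S.numVar ≤ 1 ^ S.numVar := by gcongr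
        _ = 1 := one_pow _
    have h3 := le_trans hcard h2
    have h4 : (2 ^ S.numVar : ℕ) ≤ 1 := by exact_mod_cast h3
    have h5 : 1 < 2 ^ S.numVar := Nat.one_lt_two_pow (by omega)
    omega
  let emb : Bool → A.carrier := fun c => if c then a else b
  let r : A.carrier → Bool := fun y => decide (y = a)
  have hr : ∀ c, r (emb c) = c := by
    intro c
    cases c with
    | true => simp [r, emb]
    | false => simp [r, emb, hab.symm]
  have hinj : Function.Injective (fun (x : Fin S.numVar → Bool) (v : Fin S.numVar) => emb (x v)) := by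
    intro x y hxy
    funext v
    have := congrArg r (congrFun hxy v)
    simpa [hr] using this
  obtain ⟨I, hI, hI'⟩ := hloc (Finset.univ.map ⟨_, hinj⟩) (by simp)
  refine ⟨Bool, fun i y => r (I i (fun j => emb (y j))), ⟨true, false, by simp⟩, fun x e he => ?_⟩
  rw [eval_retract hr (hS e he).1, eval_retract hr (hS e he).2]
  congr 1
  apply hI'
  · simp only [Finset.coe_map, Function.Embedding.coeFn_mk, Finset.coe_univ, Set.image_univ]
    exact ⟨x, rfl⟩
  · exact he

/-- Presentation independence for height one conditions. -/
theorem localGlobal_heightOne {S T : StrongMaltsev} (hS : S.HeightOne) (hT : T.HeightOne)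
    (hST : S.Equivalent T) (h : S.LocalGlobal) : T.LocalGlobal := by
  classical
  obtain ⟨l, hl, h⟩ := h
  obtain ⟨K, hK⟩ := StrongMaltsev.transfer hT hS hST.1 l
  refine ⟨max K 1, le_max_right _ _, fun A hcard hloc F => ?_⟩
  have h1 : ∀ F : Finset (Fin S.numVar → A.carrier), F.card ≤ l → S.SatOn A F := by
    apply hK
    intro G hG
    exact StrongMaltsev.satOn_of_card_le hcard hloc G (le_trans hG (le_max_left _ _))
  have h2 : ∀ F : Finset (Fin S.numVar → A.carrier), S.SatOn A F := by
    by_cases hc : (l : Cardinal) ≤ Cardinal.mk A.carrier ^ S.numVar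
    · exact h A hc (fun F hF => h1 F hF.le)
    · intro F
      apply h1
      rw [not_le] at hc
      have h3 : (F.card : Cardinal) ≤ Cardinal.mk (Fin S.numVar → A.carrier) := by
        rw [← Cardinal.mk_coe_finset]
        exact Cardinal.mk_subtype_le _
      have h4 : Cardinal.mk (Fin S.numVar → A.carrier) = Cardinal.mk A.carrier ^ S.numVar := by
        simp
      rw [h4] at h3
      exact_mod_cast (lt_of_le_of_lt h3 hc).le
  obtain ⟨K', hK'⟩ := StrongMaltsev.transfer hS hT hST.2 F.card
  exact hK' A (fun G _ => h2 G) F le_rfl

/-- Presentation independence of the local-global property for linear conditions. -/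
theorem localGlobal_of_equivalent {S T : StrongMaltsev} (hS : S.Linear) (hT : T.Linear)
    (hST : S.Equivalent T) (h : S.LocalGlobal) : T.LocalGlobal := by
  by_cases hcT : T.Consistent
  swap
  · exact localGlobal_of_not_consistent hT hcT
  have hcS : S.Consistent := by
    obtain ⟨B, J, ⟨a, b, hab⟩, hJ⟩ := hcT
    let C : Alg := ⟨B, ⟨a⟩, Fin T.numSym, T.arity, J⟩
    obtain ⟨I, -, hI⟩ := hST.1 C ⟨J, fun i => Alg.Clo.basic (A := C) i, fun x _ e he => hJ x e he⟩
    exact ⟨B, I, ⟨a, b, hab⟩, fun x e he => hI x (Set.mem_univ _) e he⟩
  obtain ⟨k, hk, hkS⟩ := h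
  obtain ⟨pr, hpr⟩ := exists_validSplit_of_localGlobal hS hcS hk hkS
  obtain ⟨qr, hqr⟩ := exists_validSplit_of_le hS hT hST.2 ⟨pr, hpr⟩
  have h1 : (S.restrict pr).LocalGlobal := (restrict_localGlobal_iff hS hpr).2 ⟨k, hk, hkS⟩
  have h2 : (S.restrict pr).Equivalent (T.restrict qr) := by
    constructor
    · intro A hA
      exact (satOn_restrict_iff hS hpr).2 (hST.1 A ((satOn_restrict_iff hT hqr).1 hA))
    · intro A hA
      exact (satOn_restrict_iff hT hqr).2 (hST.2 A ((satOn_restrict_iff hS hpr).1 hA))
  exact (restrict_localGlobal_iff hT hqr).1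
    (localGlobal_heightOne (restrict_heightOne hS hpr) (restrict_heightOne hT hqr) h2 h1)

end StrongMaltsev

end Pool.Agent.Helper85_LG
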